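import Pool.Agent.Work.MP_b41eab_lf.Mal

/-!
# A finite malnormal proper subgroup contains at most one involution (THEOREM LF, part 3)
-/

set_option autoImplicit false

open Cardinal
open scoped Pointwise

universe u

namespace Pool.Shelah.LF

section finite

variable {F : Type u} [Group F]

/-- a nontrivial element fixes at most one coset of a malnormal subgroup -/
lemma fix_unique {H : Subgroup F} (hm : Maln H) {g : F} (hg : g ≠ 1) {x y : F ⧸ H}
    (hx : g • x = x) (hy : g • y = y) : x = y := by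
  obtain ⟨a, rfl⟩ := QuotientGroup.mk_surjective x
  obtain ⟨b, rfl⟩ := QuotientGroup.mk_surjective y
  rw [MulAction.Quotient.smul_coe, smul_eq_mul, QuotientGroup.eq] at hx hy
  have hx' : a⁻¹ * g * a ∈ H := by
    have := H.inv_mem hx
    have e : (((g * a)⁻¹ * a)⁻¹ : F) = a⁻¹ * g * a := by group
    rwa [e] at this
  have hy' : b⁻¹ * g * b ∈ H := by
    have := H.inv_mem hy
    have e : (((g * b)⁻¹ * b)⁻¹ : F) = b⁻¹ * g * b := by group
    rwa [e] at this
  rw [QuotientGroup.eq]
  refine hm (a⁻¹ * b) (a⁻¹ * g * a) hx' (fun h => hg ?_) ?_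
  · calc g = a * (a⁻¹ * g * a) * a⁻¹ := by group
      _ = 1 := by rw [h]; group
  · have e : (a⁻¹ * b)⁻¹ * (a⁻¹ * g * a) * (a⁻¹ * b) = b⁻¹ * g * b := by group
    rw [e]
    exact hy'

/-- the number of elements without fixed points -/
lemma card_free [Finite F] {H : Subgroup F} (hm : Maln H) :
    Nat.card {g : F // ∀ x : F ⧸ H, g • x ≠ x} + 1 = Nat.card (F ⧸ H) := by
  classical
  have := Fintype.ofFinite F
  have : Fintype (F ⧸ H) := Fintype.ofFinite _
  have hB := MulAction.sum_card_fixedBy_eq_card_orbits_mul_card_group F (F ⧸ H)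
  have horb : Fintype.card (Quotient (MulAction.orbitRel F (F ⧸ H))) = 1 := by
    rw [Fintype.card_eq_one_iff]
    refine ⟨Quotient.mk _ ((1 : F) : F ⧸ H), fun q => ?_⟩
    obtain ⟨x, rfl⟩ := Quotient.exists_rep q
    refine Quotient.sound ?_
    exact MulAction.exists_smul_eq F _ _
  rw [horb, one_mul] at hB
  -- the summands
  have hs1 : ∀ g : F, g ≠ 1 → Fintype.card (MulAction.fixedBy (F ⧸ H) g) =
      if (∀ x : F ⧸ H, g • x ≠ x) then 0 else 1 := by
    intro g hg
    split_ifs with h
    · rw [Fintype.card_eq_zero_iff]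
      exact ⟨fun x => h x.1 x.2⟩
    · push Not at h
      obtain ⟨x, hx⟩ := h
      rw [Fintype.card_eq_one_iff]
      exact ⟨⟨x, hx⟩, fun y => Subtype.ext (fix_unique hm hg y.2 hx)⟩
  have hs0 : Fintype.card (MulAction.fixedBy (F ⧸ H) (1 : F)) = Fintype.card (F ⧸ H) := by
    refine Fintype.card_congr ⟨fun x => x.1, fun x => ⟨x, one_smul F x⟩, fun _ => rfl, fun _ => rfl⟩
  rw [← Finset.add_sum_erase _ _ (Finset.mem_univ (1 : F)), hs0] at hB
  have hs2 : ∑ g ∈ Finset.univ.erase (1 : F), Fintype.card (MulAction.fixedBy (F ⧸ H) g) =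
      ∑ g ∈ Finset.univ.erase (1 : F), (if (∀ x : F ⧸ H, g • x ≠ x) then 0 else 1) :=
    Finset.sum_congr rfl fun g hg => hs1 g (Finset.ne_of_mem_erase hg)
  rw [hs2] at hB
  have hs3 : ∑ g ∈ Finset.univ.erase (1 : F), (if (∀ x : F ⧸ H, g • x ≠ x) then 0 else 1) +
      ∑ g ∈ Finset.univ.erase (1 : F), (if (∀ x : F ⧸ H, g • x ≠ x) then 1 else 0) + 1 =
      Fintype.card F := by
    rw [← Finset.sum_add_distrib]
    have h1 : ∀ g : F, ((if (∀ x : F ⧸ H, g • x ≠ x) then 0 else 1) +
        (if (∀ x : F ⧸ H, g • x ≠ x) then 1 else 0) : ℕ) = 1 := fun g => by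
      split_ifs <;> rfl
    rw [Finset.sum_congr rfl fun g _ => h1 g, Finset.sum_const, smul_eq_mul, mul_one,
      Finset.card_erase_add_one (Finset.mem_univ _), Finset.card_univ]
  have hs4 : ∑ g ∈ Finset.univ.erase (1 : F), (if (∀ x : F ⧸ H, g • x ≠ x) then 1 else 0) =
      Nat.card {g : F // ∀ x : F ⧸ H, g • x ≠ x} := by
    rw [Nat.card_eq_fintype_card, Fintype.card_subtype, Finset.card_filter,
      ← Finset.add_sum_erase _ _ (Finset.mem_univ (1 : F)), if_neg, zero_add]
    push Not
    exact ⟨((1 : F) : F ⧸ H), one_smul F _⟩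
  rw [Nat.card_eq_fintype_card (α := F ⧸ H)]
  omega

/-- **a proper malnormal subgroup of a finite group contains at most one involution** -/
theorem frb [Finite F] {H : Subgroup F} (hH : H ≠ ⊤) (hm : Maln H) {r s : F} (hr : r ∈ H)
    (hs : s ∈ H) (hr1 : r ≠ 1) (hs1 : s ≠ 1) (hr2 : r * r = 1) (hs2 : s * s = 1) : r = s := by
  classical
  by_contra hrs
  obtain ⟨f, hf⟩ : ∃ f : F, f ∉ H := by
    by_contra hcon
    push Not at hcon
    exact hH ((Subgroup.eq_top_iff' H).2 hcon)
  set X := F ⧸ H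
  set x0 : X := ((1 : F) : F ⧸ H) with hx0
  set p : X := ((f : F) : F ⧸ H) with hp
  have hpx : p ≠ x0 := by
    intro h
    rw [hp, hx0, QuotientGroup.eq] at h
    apply hf
    have := H.inv_mem h
    simpa using this
  -- conjugates
  have hconj : ∀ (a t : F), t ∈ H → (a * t * a⁻¹) • ((a : F) : F ⧸ H) = ((a : F) : F ⧸ H) := by
    intro a t ht
    rw [MulAction.Quotient.smul_coe, smul_eq_mul, QuotientGroup.eq]
    have e : (a * t * a⁻¹ * a)⁻¹ * a = t⁻¹ := by group
    rw [e]
    exact H.inv_mem ht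
  have hc1 : ∀ a t : F, t ≠ 1 → a * t * a⁻¹ ≠ 1 := by
    intro a t ht h
    apply ht
    calc t = a⁻¹ * (a * t * a⁻¹) * a := by group
      _ = 1 := by rw [h]; group
  have hc2 : ∀ a t : F, t * t = 1 → (a * t * a⁻¹) * (a * t * a⁻¹) = 1 := by
    intro a t ht
    calc (a * t * a⁻¹) * (a * t * a⁻¹) = a * (t * t) * a⁻¹ := by group
      _ = 1 := by rw [ht]; group
  set r' : F := f * r * f⁻¹ with hr'
  have hr'1 : r' ≠ 1 := hc1 f r hr1
  have hr'2 : r' * r' = 1 := hc2 f r hr2
  have hr'p : r' • p = p := hconj f r hr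
  -- the involutions
  let w : X → F := fun q => if q = p then x0.out * s * x0.out⁻¹ else q.out * r * q.out⁻¹
  let π : X → X := fun q => if q = p then x0 else q
  have hπ : ∀ q, π q ≠ p := by
    intro q
    simp only [π]
    split_ifs with h
    · exact hpx.symm
    · exact h
  have hw1 : ∀ q, w q ≠ 1 := by
    intro q
    simp only [w]
    split_ifs
    · exact hc1 _ _ hs1
    · exact hc1 _ _ hr1
  have hw2 : ∀ q, w q * w q = 1 := by
    intro q
    simp only [w]
    split_ifs
    · exact hc2 _ _ hs2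
    · exact hc2 _ _ hr2
  have hout : ∀ q : X, ((q.out : F) : F ⧸ H) = q := fun q => QuotientGroup.out_eq' q
  have hwπ : ∀ q, w q • π q = π q := by
    intro q
    simp only [w, π]
    split_ifs
    · have := hconj x0.out s hs
      rwa [hout] at this
    · have := hconj q.out r hr
      rwa [hout] at this
  have hwinj : Function.Injective w := by
    intro q q' h
    have h1 : π q = π q' := by
      refine fix_unique hm (hw1 q) (hwπ q) ?_
      rw [h]
      exact hwπ q'
    simp only [π] at h1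
    by_cases hq : q = p
    · by_cases hq' : q' = p
      · rw [hq, hq']
      · exfalso
        rw [if_pos hq, if_neg hq'] at h1
        simp only [w] at h
        rw [if_pos hq, if_neg hq', ← h1] at h
        exact hrs (mul_left_cancel (mul_right_cancel h)).symm
    · by_cases hq' : q' = p
      · exfalso
        rw [if_neg hq, if_pos hq'] at h1
        simp only [w] at h
        rw [if_neg hq, if_pos hq', h1] at h
        exact hrs (mul_left_cancel (mul_right_cancel h))
      · rwa [if_neg hq, if_neg hq'] at h1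
  have hfree : ∀ q : X, ∀ y : X, (r' * w q) • y ≠ y := by
    intro q y hy
    have hne : r' * w q ≠ 1 := by
      intro h
      have h1 : w q = r' := by
        have := eq_inv_of_mul_eq_one_right h
        rw [this]
        exact inv_eq_of_mul_eq_one_left hr'2
      have h2 := hwπ q
      rw [h1] at h2
      exact hπ q (fix_unique hm hr'1 h2 hr'p)
    -- the element is inverted by `r'`
    have h1 : (r' * w q) • (r' • y) = r' • y := by
      have h2 : (r' * w q)⁻¹ • y = y := by
        rw [inv_smul_eq_iff]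
        exact hy.symm
      have h3 : (r' * w q) * r' = r' * (r' * w q)⁻¹ := by
        have e1 : (w q)⁻¹ = w q := inv_eq_of_mul_eq_one_left (hw2 q)
        have e2 : r'⁻¹ = r' := inv_eq_of_mul_eq_one_left hr'2
        rw [mul_inv_rev, e1, e2, mul_assoc]
      rw [smul_smul, h3, mul_smul, h2]
    have h2 : r' • y = y := fix_unique hm hne h1 hy
    have h3 : y = p := fix_unique hm hr'1 h2 hr'p
    have h4 : w q • y = y := by
      have e2 : r'⁻¹ • y = y := by
        rw [inv_smul_eq_iff]
        exact h2.symm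
      calc w q • y = r'⁻¹ • ((r' * w q) • y) := by rw [mul_smul, inv_smul_smul]
        _ = y := by rw [hy, e2]
    exact hπ q ((fix_unique hm (hw1 q) (hwπ q) h4).trans h3)
  have hle : Nat.card X ≤ Nat.card {g : F // ∀ x : F ⧸ H, g • x ≠ x} := by
    refine Nat.card_le_card_of_injective (fun q : X => ⟨r' * w q, hfree q⟩) ?_
    intro q q' h
    exact hwinj (mul_left_cancel (congrArg Subtype.val h))
  have h5 : Nat.card {g : F // ∀ x : F ⧸ H, g • x ≠ x} + 1 = Nat.card X := card_free hm
  omega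

/-- a nontrivial normal subgroup is not contained in a proper malnormal subgroup -/
lemma normal_not_le {H N : Subgroup F} (hH : H ≠ ⊤) (hm : Maln H) (hN : N.Normal) (hN1 : N ≠ ⊥) :
    ∃ x ∈ N, x ∉ H := by
  by_contra hcon
  push Not at hcon
  obtain ⟨z0, hz0⟩ := Subgroup.ne_bot_iff_exists_ne_one.1 hN1
  obtain ⟨z, hz, hz1⟩ : ∃ z : F, z ∈ N ∧ z ≠ 1 := ⟨z0.1, z0.2, fun h => hz0 (Subtype.ext h)⟩
  apply hH
  rw [Subgroup.eq_top_iff']
  intro f
  refine hm f z (hcon z hz) hz1 (hcon _ ?_)
  have := hN.conj_mem z hz f⁻¹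
  rwa [inv_inv] at this

/-- an element commuting with a nontrivial element of a malnormal subgroup belongs to it -/
lemma Maln.comm_mem {H : Subgroup F} (hm : Maln H) {h x : F} (hh : h ∈ H) (h1 : h ≠ 1)
    (hx : h * x = x * h) : x ∈ H := by
  refine hm x h hh h1 ?_
  have e : x⁻¹ * h * x = h := by rw [mul_assoc, hx, inv_mul_cancel_left]
  rw [e]
  exact hh

/-- **the same for infinite groups with a nontrivial normal subgroup which is finite or abelian** -/
theorem frb2 {H : Subgroup F} (hH : H ≠ ⊤) (hm : Maln H) {N : Subgroup F} (hN : N.Normal)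
    (hN1 : N ≠ ⊥) (hN2 : Finite N ∨ ∀ a ∈ N, ∀ b ∈ N, a * b = b * a) {r s : F} (hr : r ∈ H)
    (hs : s ∈ H) (hr1 : r ≠ 1) (hs1 : s ≠ 1) (hr2 : r * r = 1) (hs2 : s * s = 1) : r = s := by
  obtain ⟨x, hxN, hxH⟩ := normal_not_le hH hm hN hN1
  rcases hN2 with hfin | hab
  · -- `H` is finite
    have hHfin : Finite H := by
      refine Finite.of_injective
        (fun (h : H) (n : N) => (⟨h.1 * n.1 * h.1⁻¹, hN.conj_mem n.1 n.2 h.1⟩ : N)) ?_
      intro h h' heq
      by_contra hne
      have h2 : (h'.1⁻¹ * h.1) * x = x * (h'.1⁻¹ * h.1) := by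
        have h3 : h.1 * x * h.1⁻¹ = h'.1 * x * h'.1⁻¹ :=
          congrArg Subtype.val (congrFun heq ⟨x, hxN⟩)
        calc (h'.1⁻¹ * h.1) * x = h'.1⁻¹ * (h.1 * x * h.1⁻¹) * h.1 := by group
          _ = h'.1⁻¹ * (h'.1 * x * h'.1⁻¹) * h.1 := by rw [h3]
          _ = x * (h'.1⁻¹ * h.1) := by group
      refine hxH (hm.comm_mem (H.mul_mem (H.inv_mem h'.2) h.2) (fun h4 => hne ?_) h2)
      exact Subtype.ext (inv_mul_eq_one.1 h4).symm
    have hEfin : Finite (N ⊔ H : Subgroup F) := by
      have h1 : ((N ⊔ H : Subgroup F) : Set F) = (N : Set F) * (H : Set F) :=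
        Subgroup.normal_mul N H
      have h2 : ((N : Set F) * (H : Set F)).Finite :=
        Set.Finite.mul (Set.toFinite _) (Set.toFinite _)
      rw [← h1] at h2
      exact h2.to_subtype
    have hrE : r ∈ (N ⊔ H : Subgroup F) := Subgroup.mem_sup_right hr
    have hsE : s ∈ (N ⊔ H : Subgroup F) := Subgroup.mem_sup_right hs
    have hxE : x ∈ (N ⊔ H : Subgroup F) := Subgroup.mem_sup_left hxN
    have key := frb (F := (N ⊔ H : Subgroup F)) (H := H.subgroupOf (N ⊔ H)) ?_ ?_
      (r := ⟨r, hrE⟩) (s := ⟨s, hsE⟩) hr hs (fun h => hr1 (congrArg Subtype.val h))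
      (fun h => hs1 (congrArg Subtype.val h)) (Subtype.ext hr2) (Subtype.ext hs2)
    · exact congrArg Subtype.val key
    · intro h
      have h1 : (⟨x, hxE⟩ : (N ⊔ H : Subgroup F)) ∈ H.subgroupOf (N ⊔ H) := by
        rw [h]; exact Subgroup.mem_top _
      exact hxH h1
    · rintro ⟨a, ha⟩ ⟨z, hz⟩ h1 h2 h4
      exact hm a z h1 (fun h => h2 (Subtype.ext h)) h4
  · -- the involutions invert `N`
    by_contra hrs
    have hinvN : ∀ t : F, t ∈ H → t ≠ 1 → t * t = 1 → t * x * t = x⁻¹ := by
      intro t ht ht1 ht2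
      have hti : t⁻¹ = t := inv_eq_of_mul_eq_one_left ht2
      have hxt : t * x * t ∈ N := by
        have := hN.conj_mem x hxN t
        rwa [hti] at this
      -- `x * (t x t)` commutes with `t`
      have hcm : t * (x * (t * x * t)) = (x * (t * x * t)) * t := by
        calc t * (x * (t * x * t)) = (t * x * t) * (x * t) := by group
          _ = ((t * x * t) * x) * t := by group
          _ = (x * (t * x * t)) * t := by rw [hab _ hxt _ hxN]
      have hmem : x * (t * x * t) ∈ H := hm.comm_mem ht ht1 hcm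
      -- it is in `N`, and commutes with `x`
      by_cases h1 : x * (t * x * t) = 1
      · exact (inv_eq_of_mul_eq_one_right h1).symm
      · exfalso
        apply hxH
        refine hm.comm_mem hmem h1 ?_
        exact hab _ (N.mul_mem hxN hxt) _ hxN
    have h1 := hinvN r hr hr1 hr2
    have h2 := hinvN s hs hs1 hs2
    have hsi : s⁻¹ = s := inv_eq_of_mul_eq_one_left hs2
    have h3 : (s * r) * x = x * (s * r) := by
      have h4 : r * x * r = s * x * s := by rw [h1, h2]
      calc (s * r) * x = s * (r * x * r) * r⁻¹ := by group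
        _ = s * (s * x * s) * r⁻¹ := by rw [h4]
        _ = (s * s) * x * s * r⁻¹ := by group
        _ = x * (s * r) := by
            rw [hs2, one_mul, inv_eq_of_mul_eq_one_left hr2, mul_assoc]
    refine hxH (hm.comm_mem (H.mul_mem hs hr) (fun h => hrs ?_) h3)
    have h5 := eq_inv_of_mul_eq_one_right h
    rw [h5, hsi]

end finite

variable {G : Type u} [Group G]

/-- the group has a nontrivial normal subgroup which is finite or abelian -/
def FA (F : Type u) [Group F] : Prop :=
  ∃ N : Subgroup F, N.Normal ∧ N ≠ ⊥ ∧ (Finite N ∨ ∀ a ∈ N, ∀ b ∈ N, a * b = b * a)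

/-- **two distinct involutions and few other elements generate such a subgroup** (in a
group of uncountable regular cardinality with small centralisers) -/
theorem few_fa (hreg : (Cardinal.mk G).IsRegular) (hunc : ℵ₀ < Cardinal.mk G)
    (hc : NoCent G) {r s : G} (hrs : r ≠ s) (hr1 : r ≠ 1) (hs1 : s ≠ 1) (hr2 : r * r = 1)
    (hs2 : s * s = 1) : Small {f : G | FA (Subgroup.closure ({r, s, f} : Set G))} := by
  obtain ⟨M, hM1, hM2, hM3⟩ := small_malnormal hreg hunc hc (S := {r, s})
    (small_of_finite hreg (Set.toFinite _))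
  refine hM2.mono fun f hfin => ?_
  by_contra hfM
  obtain ⟨N, hN, hN1, hN2⟩ : FA (Subgroup.closure ({r, s, f} : Set G)) := hfin
  set F := Subgroup.closure ({r, s, f} : Set G) with hF
  have hrF : r ∈ F := Subgroup.subset_closure (by simp)
  have hsF : s ∈ F := Subgroup.subset_closure (by simp)
  have hfF : f ∈ F := Subgroup.subset_closure (by simp)
  have key := frb2 (F := F) (H := M.subgroupOf F) ?_ ?_ hN hN1 hN2 (r := ⟨r, hrF⟩)
    (s := ⟨s, hsF⟩) ?_ ?_ ?_ ?_ ?_ ?_
  · exact hrs (congrArg Subtype.val key)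
  · intro h
    have h1 : (⟨f, hfF⟩ : F) ∈ M.subgroupOf F := by rw [h]; exact Subgroup.mem_top _
    exact hfM h1
  · rintro ⟨a, ha⟩ ⟨z, hz⟩ h1 h2 h4
    exact hM3 a z h1 (fun h => h2 (Subtype.ext h)) h4
  · exact hM1 (by simp)
  · exact hM1 (by simp)
  · exact fun h => hr1 (congrArg Subtype.val h)
  · exact fun h => hs1 (congrArg Subtype.val h)
  · exact Subtype.ext hr2
  · exact Subtype.ext hs2

/-- a nontrivial finite group -/
lemma fa_of_finite {F : Type u} [Group F] [Finite F] (h : ∃ x : F, x ≠ 1) : FA F := by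
  obtain ⟨x, hx⟩ := h
  refine ⟨⊤, inferInstance, ?_, Or.inl inferInstance⟩
  intro h
  apply hx
  have : x ∈ (⊤ : Subgroup F) := Subgroup.mem_top x
  rwa [h, Subgroup.mem_bot] at this

end Pool.Shelah.LF
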