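import Pool.Agent.Work.MP_b41eab_lf.Mal

/-!
# Shelah groups: abelian groups and locally residually soluble groups (THEOREM LF, part 4)
-/

set_option autoImplicit false

open Cardinal

universe u

namespace Pool.Shelah.LF

section comm
variable {G : Type u} [CommGroup G]

/-- an infinite abelian group of regular cardinality and exponent `k` is not `n`-Shelah -/
theorem exp_false {n : ℕ} (h : She G n) (hreg : (Cardinal.mk G).IsRegular) :
    ∀ k : ℕ, 1 ≤ k → (∀ x : G, x ^ k = 1) → False := by
  intro k
  induction k using Nat.strong_induction_on with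
  | _ k ih =>
    intro hk1 hk
    by_cases hk2 : k = 1
    · subst hk2
      have : Infinite G := by
        rw [Cardinal.infinite_iff]; exact hreg.aleph0_le
      obtain ⟨v, hv⟩ := exists_ne (1 : G)
      exact hv (by simpa using hk v)
    obtain ⟨p, hp, m, hm⟩ := Nat.exists_prime_and_dvd hk2
    have hp2 := hp.two_le
    have hm1 : 1 ≤ m := by
      rcases Nat.eq_zero_or_pos m with h0 | h0
      · subst h0; omega
      · exact h0
    have hmk : m < k := by
      rw [hm]
      nlinarith
    by_cases hlarge : ∃ d : G, ¬ Small {x : G | x ^ m = d}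
    · obtain ⟨d, hd⟩ := hlarge
      exact ih m hmk hm1 (h.pow_top hreg hd)
    · push Not at hlarge
      have hS : ¬ Small {x : G | x ^ p = 1} := by
        intro hs
        refine not_small_univ ((small_iUnion hreg (t := fun d : {x : G | x ^ p = 1} =>
          {x : G | x ^ m = d.1}) hs fun d => hlarge _).mono ?_)
        intro x _
        refine Set.mem_iUnion.2 ⟨⟨x ^ m, ?_⟩, rfl⟩
        show (x ^ m) ^ p = 1
        rw [← pow_mul, mul_comm, ← hm]
        exact hk x
      have : Fact p.Prime := ⟨hp⟩
      exact h.prime_false hreg p (h.pow_top hreg hS)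

theorem comm_false {n : ℕ} (h : She G n) (hreg : (Cardinal.mk G).IsRegular) : False := by
  by_cases hn : n = 0
  · subst hn
    have : Infinite G := by
      rw [Cardinal.infinite_iff]; exact hreg.aleph0_le
    obtain ⟨v, hv⟩ := exists_ne (1 : G)
    obtain ⟨l, hl, -, hp⟩ := h Set.univ Cardinal.mk_univ v
    rw [List.length_eq_zero_iff] at hl
    subst hl
    exact hv (by simpa using hp.symm)
  by_cases hall : ∀ k : ℕ, 2 ≤ k → ∀ c : G, Small {x : G | x ^ k = c}
  · obtain ⟨A, hA, -, hg⟩ := greedy hreg (Set.univ : Set G) not_small_univ [(n, (1 : G))]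
      (by simpa using hn) (by
      intro A _ hInv q hq l hl hn hA
      simp only [List.mem_singleton] at hq
      subst hq
      obtain ⟨w, hw⟩ := ev_comm l
      have hc0 : l.countP (fun o => o.isNone) ≠ 0 := by
        intro h0
        rw [List.countP_eq_zero] at h0
        exact h0 none hn (by simp)
      have key : Small {x : G | x ^ (l.countP (fun o => o.isNone)) = w⁻¹} := by
        by_cases h1 : l.countP (fun o => o.isNone) = 1
        · rw [h1]
          refine small_subsingleton hreg ?_
          intro x (hx : x ^ 1 = w⁻¹) y (hy : y ^ 1 = w⁻¹)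
          rw [pow_one] at hx hy
          rw [hx, hy]
        · exact hall _ (by omega) _
      refine key.mono ?_
      rintro x ⟨-, hx⟩
      rw [hw x] at hx
      exact eq_inv_of_mul_eq_one_left hx)
    obtain ⟨l, hl, hm, hp⟩ := h A hA 1
    exact hg (n, 1) (by simp) l hl hm hp
  · push Not at hall
    obtain ⟨k, hk2, c, hS⟩ := hall
    exact exp_false h hreg k (by omega) (h.pow_top hreg hS)

end comm

variable {G : Type u} [Group G]

lemma comm_false' {n : ℕ} (h : She G n) (hreg : (Cardinal.mk G).IsRegular)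
    (hc : ∀ a b : G, a * b = b * a) : False := by
  let _ : CommGroup G := { (inferInstance : Group G) with mul_comm := hc }
  exact comm_false (G := G) h hreg

/-- a noncommutative Jonsson group has a small centre -/
lemma centre_small (h : Jon G) {a b : G} (hab : a * b ≠ b * a) :
    Small ((Subgroup.center G : Subgroup G) : Set G) := by
  by_contra hs
  have h1 := h _ hs
  have h2 : b ∈ Subgroup.center G := by rw [h1]; exact Subgroup.mem_top b
  exact hab ((Subgroup.mem_center_iff.1 h2) a)

/-- generation by finitely many conjugates -/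
lemma finite_conj {c x : G} (hx : x ∈ Subgroup.closure {y : G | ∃ g : G, y = g * c * g⁻¹}) :
    ∃ S : Finset G, x ∈ Subgroup.closure {y : G | ∃ g ∈ S, y = g * c * g⁻¹} := by
  classical
  induction hx using Subgroup.closure_induction with
  | mem x hx =>
    obtain ⟨g, hg⟩ := hx
    exact ⟨{g}, Subgroup.subset_closure ⟨g, by simp, hg⟩⟩
  | one => exact ⟨∅, Subgroup.one_mem _⟩
  | mul x y _ _ hx hy =>
    obtain ⟨S, hS⟩ := hx
    obtain ⟨T, hT⟩ := hy
    refine ⟨S ∪ T, Subgroup.mul_mem _ (Subgroup.closure_mono ?_ hS) (Subgroup.closure_mono ?_ hT)⟩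
    · rintro y ⟨g, hg, rfl⟩
      exact ⟨g, Finset.mem_union_left _ hg, rfl⟩
    · rintro y ⟨g, hg, rfl⟩
      exact ⟨g, Finset.mem_union_right _ hg, rfl⟩
  | inv x _ hx =>
    obtain ⟨S, hS⟩ := hx
    exact ⟨S, Subgroup.inv_mem _ hS⟩

/-- **noncommutative Jonsson groups of regular cardinality have a finitely generated subgroup with
a noncentral element in all members of its derived series** -/
theorem resid (hreg : (Cardinal.mk G).IsRegular) (h : Jon G) {a b : G} (hab : a * b ≠ b * a) :
    ∃ (S : Finset G) (c : Subgroup.closure (S : Set G)),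
      (∀ k, c ∈ derivedSeries (Subgroup.closure (S : Set G)) k) ∧
      (c : G) ∉ Subgroup.center G := by
  classical
  have hZ := centre_small h hab
  -- a noncentral commutator
  obtain ⟨x, y, hxy⟩ : ∃ x y : G, x * y * x⁻¹ * y⁻¹ ∉ Subgroup.center G := by
    by_contra hcon
    push Not at hcon
    have h1 : ∀ q : G ⧸ Subgroup.center G, q = 1 := by
      intro q
      refine Jon.quot_centreless hreg h hZ q fun q' => ?_
      obtain ⟨x, rfl⟩ := QuotientGroup.mk_surjective q
      obtain ⟨y, rfl⟩ := QuotientGroup.mk_surjective q'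
      rw [← QuotientGroup.mk_mul, ← QuotientGroup.mk_mul, QuotientGroup.eq]
      have h2 := (Subgroup.center G).inv_mem (hcon y⁻¹ x⁻¹)
      have e : (y⁻¹ * x⁻¹ * y⁻¹⁻¹ * x⁻¹⁻¹)⁻¹ = (x⁻¹ * y⁻¹ * x * y) := by group
      have h3 := hcon y⁻¹ x⁻¹
      have e2 : (x * y)⁻¹ * (y * x) = y⁻¹ * x⁻¹ * y⁻¹⁻¹ * x⁻¹⁻¹ := by group
      rw [e2]
      exact h3
    have h4 := h1 (b : G ⧸ Subgroup.center G)
    rw [QuotientGroup.eq_one_iff, Subgroup.mem_center_iff] at h4
    exact hab (h4 a)
  set c := x * y * x⁻¹ * y⁻¹ with hcdef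
  -- the class of `c` is large
  have hcl : ¬ Small {y : G | ∃ g : G, y = g * c * g⁻¹} := by
    intro hs
    have hcent : Small {g : G | c * g = g * c} := by
      by_contra hl
      apply hxy
      rw [Subgroup.mem_center_iff]
      intro g
      exact (h.comm hl (fun z hz => hz) g).symm
    refine not_small_univ ((small_iUnion hreg (t := fun d : {y : G | ∃ g : G, y = g * c * g⁻¹} =>
      {g : G | g * c * g⁻¹ = d.1}) hs ?_).mono ?_)
    · rintro ⟨d, g0, rfl⟩
      refine (small_translate hcent g0⁻¹).mono ?_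
      intro g (hg : g * c * g⁻¹ = g0 * c * g0⁻¹)
      show c * (g0⁻¹ * g) = g0⁻¹ * g * c
      calc c * (g0⁻¹ * g) = g0⁻¹ * (g0 * c * g0⁻¹) * g := by group
        _ = g0⁻¹ * (g * c * g⁻¹) * g := by rw [hg]
        _ = g0⁻¹ * g * c := by group
    · intro g _
      exact Set.mem_iUnion.2 ⟨⟨g * c * g⁻¹, g, rfl⟩, rfl⟩
  have htop : Subgroup.closure {y : G | ∃ g : G, y = g * c * g⁻¹} = ⊤ :=
    h _ fun hs => hcl (hs.mono Subgroup.subset_closure)
  obtain ⟨S1, hS1⟩ := finite_conj (c := c) (x := x) (by rw [htop]; exact Subgroup.mem_top x)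
  obtain ⟨S2, hS2⟩ := finite_conj (c := c) (x := y) (by rw [htop]; exact Subgroup.mem_top y)
  set S : Finset G := {x, y} ∪ (S1 ∪ S2) with hS
  set F := Subgroup.closure (S : Set G) with hF
  have hxF : x ∈ F := Subgroup.subset_closure (by simp [hS])
  have hyF : y ∈ F := Subgroup.subset_closure (by simp [hS])
  have h1F : ∀ g ∈ S1, g ∈ F := fun g hg => Subgroup.subset_closure (by simp [hS, hg])
  have h2F : ∀ g ∈ S2, g ∈ F := fun g hg => Subgroup.subset_closure (by simp [hS, hg])
  have hcF : c ∈ F := F.mul_mem (F.mul_mem (F.mul_mem hxF hyF) (F.inv_mem hxF)) (F.inv_mem hyF)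
  refine ⟨S, ⟨c, hcF⟩, fun k => ?_, hxy⟩
  induction k with
  | zero =>
    rw [derivedSeries_zero]
    exact Subgroup.mem_top _
  | succ k ih =>
    have hN : (derivedSeries F k).Normal := inferInstance
    have key : ∀ (T : Finset G), (∀ g ∈ T, g ∈ F) → ∀ z (hz : z ∈ F),
        z ∈ Subgroup.closure {y : G | ∃ g ∈ T, y = g * c * g⁻¹} →
        (⟨z, hz⟩ : F) ∈ derivedSeries F k := by
      intro T hT z hz hzc
      have hle : Subgroup.closure {y : G | ∃ g ∈ T, y = g * c * g⁻¹} ≤
          (derivedSeries F k).map F.subtype := by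
        rw [Subgroup.closure_le]
        rintro _ ⟨g, hg, rfl⟩
        exact ⟨_, hN.conj_mem ⟨c, hcF⟩ ih ⟨g, hT g hg⟩, rfl⟩
      obtain ⟨z', hz', hzz⟩ := hle hzc
      have : z' = ⟨z, hz⟩ := Subtype.ext hzz
      rw [← this]
      exact hz'
    have hx1 := key S1 h1F x hxF hS1
    have hy1 := key S2 h2F y hyF hS2
    rw [derivedSeries_succ]
    exact Subgroup.commutator_mem_commutator hx1 hy1

end Pool.Shelah.LF
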