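import Pool.Agent.Work.MP_b41eab_lf.W7
import Pool.Agent.Work.MP_b41eab_lf.Frb
import Pool.Agent.Work.MP_b41eab_lf.Sol

/-!
# Shelah groups: assembly of THEOREM LF
-/

set_option autoImplicit false

open Cardinal

universe u

namespace Pool.Shelah.LF

variable {G : Type u} [Group G]

/-- the quotient by the centre of a noncommutative Jonsson group of regular cardinality -/
theorem quot_all (hreg : (Cardinal.mk G).IsRegular) (h : Jon G) {a b : G} (hab : a * b ≠ b * a) :
    Cardinal.mk (G ⧸ Subgroup.center G) = Cardinal.mk G ∧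
    (Cardinal.mk (G ⧸ Subgroup.center G)).IsRegular ∧ Jon (G ⧸ Subgroup.center G) ∧
    NoCent (G ⧸ Subgroup.center G) := by
  have hZ := centre_small h hab
  have hcard := quot_card hreg _ hZ
  have hJ := h.quot (Subgroup.center G) hcard
  refine ⟨hcard, ?_, hJ, hJ.noCent fun c hc => Jon.quot_centreless hreg h hZ c hc⟩
  rw [hcard]
  exact hreg

/-- part 2 -/
theorem part2 (hreg : (Cardinal.mk G).IsRegular) (hunc : ℵ₀ < Cardinal.mk G) (h : Jon G)
    {r s : G ⧸ Subgroup.center G} (hrs : r ≠ s) (hr1 : r ≠ 1) (hs1 : s ≠ 1) (hr2 : r * r = 1)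
    (hs2 : s * s = 1) :
    Cardinal.mk {f : G ⧸ Subgroup.center G |
      FA (Subgroup.closure ({r, s, f} : Set (G ⧸ Subgroup.center G)))} < Cardinal.mk G := by
  obtain ⟨x, rfl⟩ := QuotientGroup.mk_surjective r
  obtain ⟨a, hab⟩ : ∃ a, a * x ≠ x * a := by
    by_contra hcon
    push Not at hcon
    exact hr1 ((QuotientGroup.eq_one_iff x).2 (Subgroup.mem_center_iff.2 hcon))
  obtain ⟨hcard, hreg', hJ, hN⟩ := quot_all hreg h hab
  have h1 := few_fa hreg' (by rw [hcard]; exact hunc) hN hrs hr1 hs1 hr2 hs2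
  unfold Small at h1
  rw [hcard] at h1
  exact h1

/-- part 2, groups with an involution modulo the centre, local form -/
theorem part2' (hreg : (Cardinal.mk G).IsRegular) (hunc : ℵ₀ < Cardinal.mk G) (h : Jon G)
    {t : G} (ht : t ∉ Subgroup.center G) (ht2 : t * t ∈ Subgroup.center G)
    (hfin : ∀ S : Finset (G ⧸ Subgroup.center G),
      Subgroup.closure (S : Set (G ⧸ Subgroup.center G)) ≠ ⊥ →
      FA (Subgroup.closure (S : Set (G ⧸ Subgroup.center G)))) : False := by
  classical
  obtain ⟨a, hab⟩ : ∃ a, a * t ≠ t * a := by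
    by_contra hcon
    push Not at hcon
    exact ht (Subgroup.mem_center_iff.2 hcon)
  obtain ⟨hcard, hreg', hJ, hN⟩ := quot_all hreg h hab
  have hI : ¬ Small (Inv (G ⧸ Subgroup.center G)) := by
    refine inv_large hreg' hN (e := (t : G ⧸ Subgroup.center G)) ?_ ?_
    · exact fun h => ht ((QuotientGroup.eq_one_iff t).1 h)
    · rw [← QuotientGroup.mk_mul]
      exact (QuotientGroup.eq_one_iff _).2 ht2
  obtain ⟨r, hr, s, hs, hrs⟩ : ∃ r ∈ Inv (G ⧸ Subgroup.center G),
      ∃ s ∈ Inv (G ⧸ Subgroup.center G), r ≠ s := by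
    by_contra hcon
    push Not at hcon
    exact hI (small_subsingleton hreg' hcon)
  have h1 := few_fa hreg' (by rw [hcard]; exact hunc) hN hrs hr.2 hs.2 hr.1 hs.1
  refine not_small_univ (h1.mono fun f _ => ?_)
  have h2 := hfin {r, s, f}
  show FA (Subgroup.closure ({r, s, f} : Set (G ⧸ Subgroup.center G)))
  have e : ((({r, s, f} : Finset (G ⧸ Subgroup.center G))) : Set (G ⧸ Subgroup.center G)) =
      {r, s, f} := by simp
  rw [e] at h2
  refine h2 fun h3 => ?_
  have h4 : r ∈ Subgroup.closure ({r, s, f} : Set (G ⧸ Subgroup.center G)) :=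
    Subgroup.subset_closure (by simp)
  rw [h3, Subgroup.mem_bot] at h4
  exact hr.2 h4

/-- locally finite groups satisfy the local condition -/
lemma fa_local (hfin : ∀ S : Finset G, Finite (Subgroup.closure (S : Set G))) :
    ∀ S : Finset G, Subgroup.closure (S : Set G) ≠ ⊥ → FA (Subgroup.closure (S : Set G)) := by
  intro S hS
  have := hfin S
  refine fa_of_finite ?_
  obtain ⟨z, hz⟩ := Subgroup.ne_bot_iff_exists_ne_one.1 hS
  exact ⟨z, hz⟩

/-- part 1 -/
theorem part1 (hreg : (Cardinal.mk G).IsRegular) (h : She G 7)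
    {t : G} (ht : t ∉ Subgroup.center G) (ht2 : t * t ∈ Subgroup.center G) : False := by
  obtain ⟨a, hab⟩ : ∃ a, a * t ≠ t * a := by
    by_contra hcon
    push Not at hcon
    exact ht (Subgroup.mem_center_iff.2 hcon)
  obtain ⟨hcard, hreg', hJ, hN⟩ := quot_all hreg (jon_of_she h) hab
  have hQ := quot_she h (Subgroup.center G) hcard
  obtain ⟨A, hA, hne⟩ := seven hreg' hN (e := (t : G ⧸ Subgroup.center G))
    (fun h => ht ((QuotientGroup.eq_one_iff t).1 h)) (by
      rw [← QuotientGroup.mk_mul]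
      exact (QuotientGroup.eq_one_iff _).2 ht2)
  obtain ⟨l, hl, hm, hp⟩ := hQ A hA 1
  exact hne l hl hm hp

/-- part 3 -/
theorem part3 {n : ℕ} (hreg : (Cardinal.mk G).IsRegular) (h : She G n)
    (hres : ∀ (S : Finset G) (c : Subgroup.closure (S : Set G)),
      (∀ k, c ∈ derivedSeries (Subgroup.closure (S : Set G)) k) → (c : G) ∈ Subgroup.center G) :
    False := by
  by_cases hab : ∃ a b : G, a * b ≠ b * a
  · obtain ⟨a, b, hab⟩ := hab
    obtain ⟨S, c, h1, h2⟩ := resid hreg (jon_of_she h) hab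
    exact h2 (hres S c h1)
  · push Not at hab
    exact comm_false' h hreg hab

/-- part 4 -/
theorem part4 (hFT : ∀ (F : Type u) [Group F] [Finite F], Odd (Nat.card F) → Group.IsSolvable F)
    (hreg : (Cardinal.mk G).IsRegular) (hunc : ℵ₀ < Cardinal.mk G) (h : Jon G)
    {a b : G} (hab : a * b ≠ b * a)
    (hfin : ∀ S : Finset (G ⧸ Subgroup.center G),
      Finite (Subgroup.closure (S : Set (G ⧸ Subgroup.center G)))) : False := by
  by_cases hinv : ∃ t : G, t ∉ Subgroup.center G ∧ t * t ∈ Subgroup.center G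
  · obtain ⟨t, ht, ht2⟩ := hinv
    exact part2' hreg hunc h ht ht2 (fa_local hfin)
  push Not at hinv
  obtain ⟨hcard, hreg', hJ, hN⟩ := quot_all hreg h hab
  have hinv' : ∀ q : G ⧸ Subgroup.center G, q * q = 1 → q = 1 := by
    intro q hq
    obtain ⟨x, rfl⟩ := QuotientGroup.mk_surjective q
    by_contra hne
    refine hinv x (fun h => hne ((QuotientGroup.eq_one_iff x).2 h)) ?_
    rw [← QuotientGroup.mk_mul] at hq
    exact (QuotientGroup.eq_one_iff _).1 hq
  -- the quotient is not commutative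
  obtain ⟨x, y, hxy⟩ : ∃ x y : G ⧸ Subgroup.center G, x * y ≠ y * x := by
    by_contra hcon
    push Not at hcon
    have h1 : ∀ q : G ⧸ Subgroup.center G, q = 1 := fun q =>
      hN Set.univ not_small_univ q fun x _ => hcon q x
    have h2 := h1 (b : G ⧸ Subgroup.center G)
    rw [QuotientGroup.eq_one_iff, Subgroup.mem_center_iff] at h2
    exact hab (h2 a)
  obtain ⟨S, c, h1, h2⟩ := resid hreg' hJ hxy
  have hSf := hfin S
  have hodd : Odd (Nat.card (Subgroup.closure (S : Set (G ⧸ Subgroup.center G)))) := by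
    rw [← Nat.not_even_iff_odd, even_iff_two_dvd]
    intro h2
    have : Fact (Nat.Prime 2) := ⟨Nat.prime_two⟩
    obtain ⟨z, hz⟩ := exists_prime_orderOf_dvd_card' 2 h2
    have h3 : z * z = 1 := by
      rw [← pow_two, ← hz]
      exact pow_orderOf_eq_one z
    have h4 : (z : G ⧸ Subgroup.center G) = 1 := hinv' z.1 (congrArg Subtype.val h3)
    have h5 : z = 1 := Subtype.ext h4
    rw [h5, orderOf_one] at hz
    omega
  obtain ⟨k, hk⟩ := (hFT _ hodd).solvable
  have h3 := h1 k
  rw [hk, Subgroup.mem_bot] at h3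
  apply h2
  rw [h3]
  exact Subgroup.one_mem _

end Pool.Shelah.LF
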