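import Pool.Agent.Work.MP_b41eab_h9.Reduce

/-!
# Shelah groups: small malnormal subgroups, involutions (THEOREM LF, part 2)
-/

set_option autoImplicit false

open Cardinal

universe u

namespace Pool.Shelah.LF

variable {G : Type u} [Group G]

/-! ### Jonsson groups -/

/-- every subgroup of full cardinality is everything -/
def Jon (G : Type u) [Group G] : Prop := ∀ H : Subgroup G, ¬ Small (H : Set G) → H = ⊤

lemma jon_of_she {n : ℕ} (h : She G n) : Jon G := fun H hH => by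
  rw [Subgroup.eq_top_iff']
  exact h.sub_top hH H subset_rfl

lemma Jon.comm (h : Jon G) {S : Set G} (hS : ¬ Small S) {c : G} (hc : ∀ x ∈ S, c * x = x * c) :
    ∀ g : G, c * g = g * c := by
  intro g
  have hsub : S ⊆ (Subgroup.centralizer {c} : Set G) := fun x hx => by
    rw [SetLike.mem_coe, Subgroup.mem_centralizer_singleton_iff]
    exact (hc x hx).symm
  have h1 : Subgroup.centralizer {c} = (⊤ : Subgroup G) := h _ fun hs => hS (hs.mono hsub)
  have h2 : g ∈ Subgroup.centralizer {c} := by rw [h1]; exact Subgroup.mem_top g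
  rw [Subgroup.mem_centralizer_singleton_iff] at h2
  exact h2.symm

lemma Jon.noCent (h : Jon G) (hz : ∀ c : G, (∀ g : G, c * g = g * c) → c = 1) :
    NoCent G := fun _ hS c hc => hz c (h.comm hS hc)

lemma Jon.quot (h : Jon G) (Z : Subgroup G) [Z.Normal]
    (hcard : Cardinal.mk (G ⧸ Z) = Cardinal.mk G) : Jon (G ⧸ Z) := by
  intro H hH
  have h1 : ¬ Small ((H.comap (QuotientGroup.mk' Z) : Subgroup G) : Set G) := by
    intro hs
    apply hH
    unfold Small at hs ⊢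
    rw [hcard]
    refine lt_of_le_of_lt ?_ hs
    refine Cardinal.mk_le_of_surjective
      (f := fun x : ((H.comap (QuotientGroup.mk' Z) : Subgroup G) : Set G) =>
        (⟨QuotientGroup.mk' Z x.1, x.2⟩ : (H : Set (G ⧸ Z)))) ?_
    rintro ⟨b, hb⟩
    obtain ⟨x, rfl⟩ := QuotientGroup.mk'_surjective Z b
    exact ⟨⟨x, hb⟩, rfl⟩
  have h2 := h _ h1
  rw [Subgroup.eq_top_iff'] at h2 ⊢
  intro q
  obtain ⟨g, rfl⟩ := QuotientGroup.mk'_surjective Z q
  exact h2 g

lemma Jon.quot_centreless (hreg : (Cardinal.mk G).IsRegular) (h : Jon G)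
    (hZ : Small ((Subgroup.center G : Subgroup G) : Set G)) (c : G ⧸ Subgroup.center G)
    (hc : ∀ g, c * g = g * c) : c = 1 := by
  obtain ⟨a, rfl⟩ := QuotientGroup.mk_surjective c
  have hz : ∀ x : G, a * x * a⁻¹ * x⁻¹ ∈ Subgroup.center G := by
    intro x
    have h1 := hc (x : G ⧸ Subgroup.center G)
    rw [← QuotientGroup.mk_mul, ← QuotientGroup.mk_mul, QuotientGroup.eq] at h1
    have h2 := (Subgroup.center G).inv_mem h1
    have h3 : a * x * a⁻¹ * x⁻¹ = (x * a) * (((a * x)⁻¹ * (x * a))⁻¹) * (x * a)⁻¹ := by group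
    rw [h3]
    exact (inferInstance : (Subgroup.center G).Normal).conj_mem _ h2 _
  have hf : ∃ z : ((Subgroup.center G : Subgroup G) : Set G),
      ¬ Small {x : G | a * x * a⁻¹ * x⁻¹ = z.1} := by
    by_contra hcon
    push Not at hcon
    refine not_small_univ ((small_iUnion hreg hZ hcon).mono ?_)
    intro x _
    exact Set.mem_iUnion.2 ⟨⟨_, hz x⟩, rfl⟩
  obtain ⟨z, hS⟩ := hf
  have hne : ({x : G | a * x * a⁻¹ * x⁻¹ = z.1}).Nonempty := by
    by_contra h0
    rw [Set.not_nonempty_iff_eq_empty] at h0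
    exact hS (h0 ▸ small_of_finite hreg Set.finite_empty)
  obtain ⟨x0, hx0⟩ := hne
  have hx0' : a * x0 * a⁻¹ * x0⁻¹ = z.1 := hx0
  have hT : ¬ Small {x : G | x0 * x ∈ {x : G | a * x * a⁻¹ * x⁻¹ = z.1}} := by
    intro hsm
    apply hS
    refine small_of_injOn hsm (fun x => x0⁻¹ * x) (fun x _ y _ h => mul_left_cancel h) ?_
    intro x hx
    show x0 * (x0⁻¹ * x) ∈ {x : G | a * x * a⁻¹ * x⁻¹ = z.1}
    rw [mul_inv_cancel_left]; exact hx
  have hcomm := h.comm hT (c := a) (by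
    intro y hy
    have hy' : a * (x0 * y) * a⁻¹ * (x0 * y)⁻¹ = z.1 := hy
    have h1 : a * (x0 * y) * a⁻¹ * (x0 * y)⁻¹ = a * x0 * a⁻¹ * x0⁻¹ := by rw [hy', hx0']
    have h2 : a * y * a⁻¹ * y⁻¹ = 1 := by
      calc a * y * a⁻¹ * y⁻¹
          = (a * x0 * a⁻¹)⁻¹ * (a * (x0 * y) * a⁻¹ * (x0 * y)⁻¹) * x0 := by group
        _ = (a * x0 * a⁻¹)⁻¹ * (a * x0 * a⁻¹ * x0⁻¹) * x0 := by rw [h1]
        _ = 1 := by group
    calc a * y = (a * y * a⁻¹ * y⁻¹) * (y * a) := by group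
      _ = y * a := by rw [h2, one_mul])
  rw [QuotientGroup.eq_one_iff, Subgroup.mem_center_iff]
  intro g
  exact (hcomm g).symm

/-! ### small malnormal subgroups -/

lemma small_mul (hreg : (Cardinal.mk G).IsRegular) {S T : Set G} (hS : Small S) (hT : Small T) :
    Small {x : G | ∃ a ∈ S, ∃ b ∈ T, x = a * b} := by
  have h : Small (⋃ a : S, {x : G | (a : G)⁻¹ * x ∈ T}) :=
    small_iUnion hreg hS fun a => small_translate hT _
  refine h.mono ?_
  rintro x ⟨a, ha, b, hb, rfl⟩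
  refine Set.mem_iUnion.2 ⟨⟨a, ha⟩, ?_⟩
  show a⁻¹ * (a * b) ∈ T
  rw [inv_mul_cancel_left]
  exact hb

/-- one step of the closure -/
def stp (T : Set G) : Set G :=
  ((T ∪ {x | ∃ a ∈ T, ∃ b ∈ T, x = a * b}) ∪ {x | x⁻¹ ∈ T}) ∪
    {f | ∃ z ∈ T, z ≠ 1 ∧ f⁻¹ * z * f ∈ T}

lemma small_stp (hreg : (Cardinal.mk G).IsRegular) (hc : NoCent G) {T : Set G} (hT : Small T) :
    Small (stp T) := by
  refine small_union hreg (small_union hreg (small_union hreg hT (small_mul hreg hT hT)) ?_) ?_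
  · exact small_of_injOn hT (fun x => x⁻¹) (fun x _ y _ h => inv_injective h) fun x hx => hx
  · have h : Small (⋃ z : {z : G | z ∈ T ∧ z ≠ 1}, ⋃ w : T, {f : G | f⁻¹ * (z : G) * f = w}) :=
      small_iUnion hreg (hT.mono fun z hz => hz.1) fun z =>
        small_iUnion hreg hT fun w => t2' hc z.2.2 _
    refine h.mono ?_
    rintro f ⟨z, hz, hz1, hf⟩
    exact Set.mem_iUnion.2 ⟨⟨z, hz, hz1⟩, Set.mem_iUnion.2 ⟨⟨_, hf⟩, rfl⟩⟩

/-- the stages -/
def stage (S : Set G) : ℕ → Set G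
  | 0 => S ∪ {1}
  | n + 1 => stp (stage S n)

lemma stage_mono (S : Set G) {m n : ℕ} (h : m ≤ n) : stage S m ⊆ stage S n := by
  induction n with
  | zero => rw [Nat.le_zero.1 h]
  | succ n ih =>
    rcases Nat.lt_or_ge m (n + 1) with h1 | h1
    · exact (ih (Nat.lt_succ_iff.1 h1)).trans fun x hx => Or.inl (Or.inl (Or.inl hx))
    · rw [le_antisymm h h1]

/-- a subgroup is malnormal -/
def Maln (M : Subgroup G) : Prop :=
  ∀ f z : G, z ∈ M → z ≠ 1 → f⁻¹ * z * f ∈ M → f ∈ M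

/-- **small sets are contained in small malnormal subgroups** -/
theorem small_malnormal (hreg : (Cardinal.mk G).IsRegular) (hunc : ℵ₀ < Cardinal.mk G)
    (hc : NoCent G) {S : Set G} (hS : Small S) :
    ∃ M : Subgroup G, S ⊆ M ∧ Small (M : Set G) ∧ Maln M := by
  have hsm : ∀ n, Small (stage S n) := by
    intro n
    induction n with
    | zero => exact small_union hreg hS (small_of_finite hreg (Set.finite_singleton 1))
    | succ n ih => exact small_stp hreg hc ih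
  let M : Subgroup G :=
    { carrier := ⋃ n : ULift.{u} ℕ, stage S n.down
      mul_mem' := by
        intro a b ha hb
        obtain ⟨m, hm⟩ := Set.mem_iUnion.1 ha
        obtain ⟨n, hn⟩ := Set.mem_iUnion.1 hb
        refine Set.mem_iUnion.2 ⟨⟨max m.down n.down + 1⟩, Or.inl (Or.inl (Or.inr
          ⟨a, stage_mono S (le_max_left _ _) hm, b, stage_mono S (le_max_right _ _) hn, rfl⟩))⟩
      one_mem' := Set.mem_iUnion.2 ⟨⟨0⟩, Or.inr rfl⟩
      inv_mem' := by
        intro a ha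
        obtain ⟨m, hm⟩ := Set.mem_iUnion.1 ha
        refine Set.mem_iUnion.2 ⟨⟨m.down + 1⟩, Or.inl (Or.inr ?_)⟩
        show a⁻¹⁻¹ ∈ stage S m.down
        rw [inv_inv]
        exact hm }
  have hM : (M : Set G) = ⋃ n : ULift.{u} ℕ, stage S n.down := rfl
  refine ⟨M, ?_, ?_, ?_⟩
  · rw [hM]
    exact fun x hx => Set.mem_iUnion.2 ⟨⟨0⟩, Or.inl hx⟩
  · rw [hM]
    refine small_iUnion hreg ?_ fun n => hsm n.down
    rw [Cardinal.mk_uLift, Cardinal.mk_nat, Cardinal.lift_aleph0]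
    exact hunc
  · intro f z hz hz1 hf
    obtain ⟨m, hm⟩ := Set.mem_iUnion.1 hz
    obtain ⟨n, hn⟩ := Set.mem_iUnion.1 hf
    exact Set.mem_iUnion.2 ⟨⟨max m.down n.down + 1⟩, Or.inr
      ⟨z, stage_mono S (le_max_left _ _) hm, hz1, stage_mono S (le_max_right _ _) hn⟩⟩

end Pool.Shelah.LF
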