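import Pool.Agent.Work.MP_b41eab_h9.Reduce

/-!
# Shelah groups: words of length seven in involutions (THEOREM LF, part 1)
-/

set_option autoImplicit false

open Cardinal

universe u

namespace Pool.Shelah.LF

/-- words of length 7 with at least one hole, up to rotation -/
lemma cyc7 {β : Type u} (Q : List (Option β) → Prop)
    (hrot : ∀ (l : List (Option β)) (a : Option β), Q (a :: l) → Q (l ++ [a]))
    (hadj : ∀ l : List (Option β), l.length = 5 → Q (none :: none :: l))
    (h1 : ∀ a b c d e f, Q [none, some a, some b, some c, some d, some e, some f])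
    (h14 : ∀ a b c d e, Q [none, some a, none, some b, some c, some d, some e])
    (h23 : ∀ a b c d e, Q [none, some a, some b, none, some c, some d, some e])
    (h112 : ∀ a b c d, Q [none, some a, none, some b, none, some c, some d]) :
    ∀ l : List (Option β), l.length = 7 → none ∈ l → Q l := by
  intro l hl hn
  have r : ∀ a b c d e f g : Option β, Q [a, b, c, d, e, f, g] → Q [b, c, d, e, f, g, a] :=
    fun a b c d e f g h => hrot [b, c, d, e, f, g] a h
  match l, hl, hn with
  | [some a, some b, some c, some d, some e, some f, some g], _, hn => simp at hn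
  | [some a, some b, some c, some d, some e, some f, none], _, _ => exact r _ _ _ _ _ _ _ (h1 a b c d e f)
  | [some a, some b, some c, some d, some e, none, some f], _, _ => exact r _ _ _ _ _ _ _ (r _ _ _ _ _ _ _ (h1 f a b c d e))
  | [some a, some b, some c, some d, some e, none, none], _, _ => exact r _ _ _ _ _ _ _ (r _ _ _ _ _ _ _ (hadj [some a, some b, some c, some d, some e] rfl))
  | [some a, some b, some c, some d, none, some e, some f], _, _ => exact r _ _ _ _ _ _ _ (r _ _ _ _ _ _ _ (r _ _ _ _ _ _ _ (h1 e f a b c d)))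
  | [some a, some b, some c, some d, none, some e, none], _, _ => exact r _ _ _ _ _ _ _ (r _ _ _ _ _ _ _ (r _ _ _ _ _ _ _ (h14 e a b c d)))
  | [some a, some b, some c, some d, none, none, some e], _, _ => exact r _ _ _ _ _ _ _ (r _ _ _ _ _ _ _ (r _ _ _ _ _ _ _ (hadj [some e, some a, some b, some c, some d] rfl)))
  | [some a, some b, some c, some d, none, none, none], _, _ => exact r _ _ _ _ _ _ _ (r _ _ _ _ _ _ _ (r _ _ _ _ _ _ _ (hadj [none, some a, some b, some c, some d] rfl)))
  | [some a, some b, some c, none, some d, some e, some f], _, _ => exact r _ _ _ _ _ _ _ (r _ _ _ _ _ _ _ (r _ _ _ _ _ _ _ (r _ _ _ _ _ _ _ (h1 d e f a b c))))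
  | [some a, some b, some c, none, some d, some e, none], _, _ => exact r _ _ _ _ _ _ _ (r _ _ _ _ _ _ _ (r _ _ _ _ _ _ _ (r _ _ _ _ _ _ _ (h23 d e a b c))))
  | [some a, some b, some c, none, some d, none, some e], _, _ => exact r _ _ _ _ _ _ _ (r _ _ _ _ _ _ _ (r _ _ _ _ _ _ _ (r _ _ _ _ _ _ _ (h14 d e a b c))))
  | [some a, some b, some c, none, some d, none, none], _, _ => exact r _ _ _ _ _ _ _ (r _ _ _ _ _ _ _ (hadj [some a, some b, some c, none, some d] rfl))
  | [some a, some b, some c, none, none, some d, some e], _, _ => exact r _ _ _ _ _ _ _ (r _ _ _ _ _ _ _ (r _ _ _ _ _ _ _ (r _ _ _ _ _ _ _ (hadj [some d, some e, some a, some b, some c] rfl))))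
  | [some a, some b, some c, none, none, some d, none], _, _ => exact r _ _ _ _ _ _ _ (r _ _ _ _ _ _ _ (r _ _ _ _ _ _ _ (r _ _ _ _ _ _ _ (hadj [some d, none, some a, some b, some c] rfl))))
  | [some a, some b, some c, none, none, none, some d], _, _ => exact r _ _ _ _ _ _ _ (r _ _ _ _ _ _ _ (r _ _ _ _ _ _ _ (r _ _ _ _ _ _ _ (hadj [none, some d, some a, some b, some c] rfl))))
  | [some a, some b, some c, none, none, none, none], _, _ => exact r _ _ _ _ _ _ _ (r _ _ _ _ _ _ _ (r _ _ _ _ _ _ _ (r _ _ _ _ _ _ _ (hadj [none, none, some a, some b, some c] rfl))))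
  | [some a, some b, none, some c, some d, some e, some f], _, _ => exact r _ _ _ _ _ _ _ (r _ _ _ _ _ _ _ (r _ _ _ _ _ _ _ (r _ _ _ _ _ _ _ (r _ _ _ _ _ _ _ (h1 c d e f a b)))))
  | [some a, some b, none, some c, some d, some e, none], _, _ => exact r _ _ _ _ _ _ _ (h23 a b c d e)
  | [some a, some b, none, some c, some d, none, some e], _, _ => exact r _ _ _ _ _ _ _ (r _ _ _ _ _ _ _ (r _ _ _ _ _ _ _ (r _ _ _ _ _ _ _ (r _ _ _ _ _ _ _ (h23 c d e a b)))))
  | [some a, some b, none, some c, some d, none, none], _, _ => exact r _ _ _ _ _ _ _ (r _ _ _ _ _ _ _ (hadj [some a, some b, none, some c, some d] rfl))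
  | [some a, some b, none, some c, none, some d, some e], _, _ => exact r _ _ _ _ _ _ _ (r _ _ _ _ _ _ _ (r _ _ _ _ _ _ _ (r _ _ _ _ _ _ _ (r _ _ _ _ _ _ _ (h14 c d e a b)))))
  | [some a, some b, none, some c, none, some d, none], _, _ => exact r _ _ _ _ _ _ _ (r _ _ _ _ _ _ _ (r _ _ _ _ _ _ _ (r _ _ _ _ _ _ _ (r _ _ _ _ _ _ _ (h112 c d a b)))))
  | [some a, some b, none, some c, none, none, some d], _, _ => exact r _ _ _ _ _ _ _ (r _ _ _ _ _ _ _ (r _ _ _ _ _ _ _ (hadj [some d, some a, some b, none, some c] rfl)))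
  | [some a, some b, none, some c, none, none, none], _, _ => exact r _ _ _ _ _ _ _ (r _ _ _ _ _ _ _ (r _ _ _ _ _ _ _ (hadj [none, some a, some b, none, some c] rfl)))
  | [some a, some b, none, none, some c, some d, some e], _, _ => exact r _ _ _ _ _ _ _ (r _ _ _ _ _ _ _ (r _ _ _ _ _ _ _ (r _ _ _ _ _ _ _ (r _ _ _ _ _ _ _ (hadj [some c, some d, some e, some a, some b] rfl)))))
  | [some a, some b, none, none, some c, some d, none], _, _ => exact r _ _ _ _ _ _ _ (r _ _ _ _ _ _ _ (r _ _ _ _ _ _ _ (r _ _ _ _ _ _ _ (r _ _ _ _ _ _ _ (hadj [some c, some d, none, some a, some b] rfl)))))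
  | [some a, some b, none, none, some c, none, some d], _, _ => exact r _ _ _ _ _ _ _ (r _ _ _ _ _ _ _ (r _ _ _ _ _ _ _ (r _ _ _ _ _ _ _ (r _ _ _ _ _ _ _ (hadj [some c, none, some d, some a, some b] rfl)))))
  | [some a, some b, none, none, some c, none, none], _, _ => exact r _ _ _ _ _ _ _ (r _ _ _ _ _ _ _ (r _ _ _ _ _ _ _ (r _ _ _ _ _ _ _ (r _ _ _ _ _ _ _ (hadj [some c, none, none, some a, some b] rfl)))))
  | [some a, some b, none, none, none, some c, some d], _, _ => exact r _ _ _ _ _ _ _ (r _ _ _ _ _ _ _ (r _ _ _ _ _ _ _ (r _ _ _ _ _ _ _ (r _ _ _ _ _ _ _ (hadj [none, some c, some d, some a, some b] rfl)))))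
  | [some a, some b, none, none, none, some c, none], _, _ => exact r _ _ _ _ _ _ _ (r _ _ _ _ _ _ _ (r _ _ _ _ _ _ _ (r _ _ _ _ _ _ _ (r _ _ _ _ _ _ _ (hadj [none, some c, none, some a, some b] rfl)))))
  | [some a, some b, none, none, none, none, some c], _, _ => exact r _ _ _ _ _ _ _ (r _ _ _ _ _ _ _ (r _ _ _ _ _ _ _ (r _ _ _ _ _ _ _ (r _ _ _ _ _ _ _ (hadj [none, none, some c, some a, some b] rfl)))))
  | [some a, some b, none, none, none, none, none], _, _ => exact r _ _ _ _ _ _ _ (r _ _ _ _ _ _ _ (r _ _ _ _ _ _ _ (r _ _ _ _ _ _ _ (r _ _ _ _ _ _ _ (hadj [none, none, none, some a, some b] rfl)))))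
  | [some a, none, some b, some c, some d, some e, some f], _, _ => exact r _ _ _ _ _ _ _ (r _ _ _ _ _ _ _ (r _ _ _ _ _ _ _ (r _ _ _ _ _ _ _ (r _ _ _ _ _ _ _ (r _ _ _ _ _ _ _ (h1 b c d e f a))))))
  | [some a, none, some b, some c, some d, some e, none], _, _ => exact r _ _ _ _ _ _ _ (h14 a b c d e)
  | [some a, none, some b, some c, some d, none, some e], _, _ => exact r _ _ _ _ _ _ _ (r _ _ _ _ _ _ _ (h23 e a b c d))
  | [some a, none, some b, some c, some d, none, none], _, _ => exact r _ _ _ _ _ _ _ (r _ _ _ _ _ _ _ (hadj [some a, none, some b, some c, some d] rfl))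
  | [some a, none, some b, some c, none, some d, some e], _, _ => exact r _ _ _ _ _ _ _ (r _ _ _ _ _ _ _ (r _ _ _ _ _ _ _ (r _ _ _ _ _ _ _ (r _ _ _ _ _ _ _ (r _ _ _ _ _ _ _ (h23 b c d e a))))))
  | [some a, none, some b, some c, none, some d, none], _, _ => exact r _ _ _ _ _ _ _ (r _ _ _ _ _ _ _ (r _ _ _ _ _ _ _ (h112 d a b c)))
  | [some a, none, some b, some c, none, none, some d], _, _ => exact r _ _ _ _ _ _ _ (r _ _ _ _ _ _ _ (r _ _ _ _ _ _ _ (hadj [some d, some a, none, some b, some c] rfl)))
  | [some a, none, some b, some c, none, none, none], _, _ => exact r _ _ _ _ _ _ _ (r _ _ _ _ _ _ _ (r _ _ _ _ _ _ _ (hadj [none, some a, none, some b, some c] rfl)))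
  | [some a, none, some b, none, some c, some d, some e], _, _ => exact r _ _ _ _ _ _ _ (r _ _ _ _ _ _ _ (r _ _ _ _ _ _ _ (r _ _ _ _ _ _ _ (r _ _ _ _ _ _ _ (r _ _ _ _ _ _ _ (h14 b c d e a))))))
  | [some a, none, some b, none, some c, some d, none], _, _ => exact r _ _ _ _ _ _ _ (h112 a b c d)
  | [some a, none, some b, none, some c, none, some d], _, _ => exact r _ _ _ _ _ _ _ (r _ _ _ _ _ _ _ (r _ _ _ _ _ _ _ (r _ _ _ _ _ _ _ (r _ _ _ _ _ _ _ (r _ _ _ _ _ _ _ (h112 b c d a))))))
  | [some a, none, some b, none, some c, none, none], _, _ => exact r _ _ _ _ _ _ _ (r _ _ _ _ _ _ _ (hadj [some a, none, some b, none, some c] rfl))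
  | [some a, none, some b, none, none, some c, some d], _, _ => exact r _ _ _ _ _ _ _ (r _ _ _ _ _ _ _ (r _ _ _ _ _ _ _ (r _ _ _ _ _ _ _ (hadj [some c, some d, some a, none, some b] rfl))))
  | [some a, none, some b, none, none, some c, none], _, _ => exact r _ _ _ _ _ _ _ (r _ _ _ _ _ _ _ (r _ _ _ _ _ _ _ (r _ _ _ _ _ _ _ (hadj [some c, none, some a, none, some b] rfl))))
  | [some a, none, some b, none, none, none, some c], _, _ => exact r _ _ _ _ _ _ _ (r _ _ _ _ _ _ _ (r _ _ _ _ _ _ _ (r _ _ _ _ _ _ _ (hadj [none, some c, some a, none, some b] rfl))))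
  | [some a, none, some b, none, none, none, none], _, _ => exact r _ _ _ _ _ _ _ (r _ _ _ _ _ _ _ (r _ _ _ _ _ _ _ (r _ _ _ _ _ _ _ (hadj [none, none, some a, none, some b] rfl))))
  | [some a, none, none, some b, some c, some d, some e], _, _ => exact r _ _ _ _ _ _ _ (r _ _ _ _ _ _ _ (r _ _ _ _ _ _ _ (r _ _ _ _ _ _ _ (r _ _ _ _ _ _ _ (r _ _ _ _ _ _ _ (hadj [some b, some c, some d, some e, some a] rfl))))))
  | [some a, none, none, some b, some c, some d, none], _, _ => exact r _ _ _ _ _ _ _ (r _ _ _ _ _ _ _ (r _ _ _ _ _ _ _ (r _ _ _ _ _ _ _ (r _ _ _ _ _ _ _ (r _ _ _ _ _ _ _ (hadj [some b, some c, some d, none, some a] rfl))))))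
  | [some a, none, none, some b, some c, none, some d], _, _ => exact r _ _ _ _ _ _ _ (r _ _ _ _ _ _ _ (r _ _ _ _ _ _ _ (r _ _ _ _ _ _ _ (r _ _ _ _ _ _ _ (r _ _ _ _ _ _ _ (hadj [some b, some c, none, some d, some a] rfl))))))
  | [some a, none, none, some b, some c, none, none], _, _ => exact r _ _ _ _ _ _ _ (r _ _ _ _ _ _ _ (r _ _ _ _ _ _ _ (r _ _ _ _ _ _ _ (r _ _ _ _ _ _ _ (r _ _ _ _ _ _ _ (hadj [some b, some c, none, none, some a] rfl))))))
  | [some a, none, none, some b, none, some c, some d], _, _ => exact r _ _ _ _ _ _ _ (r _ _ _ _ _ _ _ (r _ _ _ _ _ _ _ (r _ _ _ _ _ _ _ (r _ _ _ _ _ _ _ (r _ _ _ _ _ _ _ (hadj [some b, none, some c, some d, some a] rfl))))))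
  | [some a, none, none, some b, none, some c, none], _, _ => exact r _ _ _ _ _ _ _ (r _ _ _ _ _ _ _ (r _ _ _ _ _ _ _ (r _ _ _ _ _ _ _ (r _ _ _ _ _ _ _ (r _ _ _ _ _ _ _ (hadj [some b, none, some c, none, some a] rfl))))))
  | [some a, none, none, some b, none, none, some c], _, _ => exact r _ _ _ _ _ _ _ (r _ _ _ _ _ _ _ (r _ _ _ _ _ _ _ (r _ _ _ _ _ _ _ (r _ _ _ _ _ _ _ (r _ _ _ _ _ _ _ (hadj [some b, none, none, some c, some a] rfl))))))
  | [some a, none, none, some b, none, none, none], _, _ => exact r _ _ _ _ _ _ _ (r _ _ _ _ _ _ _ (r _ _ _ _ _ _ _ (r _ _ _ _ _ _ _ (r _ _ _ _ _ _ _ (r _ _ _ _ _ _ _ (hadj [some b, none, none, none, some a] rfl))))))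
  | [some a, none, none, none, some b, some c, some d], _, _ => exact r _ _ _ _ _ _ _ (r _ _ _ _ _ _ _ (r _ _ _ _ _ _ _ (r _ _ _ _ _ _ _ (r _ _ _ _ _ _ _ (r _ _ _ _ _ _ _ (hadj [none, some b, some c, some d, some a] rfl))))))
  | [some a, none, none, none, some b, some c, none], _, _ => exact r _ _ _ _ _ _ _ (r _ _ _ _ _ _ _ (r _ _ _ _ _ _ _ (r _ _ _ _ _ _ _ (r _ _ _ _ _ _ _ (r _ _ _ _ _ _ _ (hadj [none, some b, some c, none, some a] rfl))))))
  | [some a, none, none, none, some b, none, some c], _, _ => exact r _ _ _ _ _ _ _ (r _ _ _ _ _ _ _ (r _ _ _ _ _ _ _ (r _ _ _ _ _ _ _ (r _ _ _ _ _ _ _ (r _ _ _ _ _ _ _ (hadj [none, some b, none, some c, some a] rfl))))))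
  | [some a, none, none, none, some b, none, none], _, _ => exact r _ _ _ _ _ _ _ (r _ _ _ _ _ _ _ (r _ _ _ _ _ _ _ (r _ _ _ _ _ _ _ (r _ _ _ _ _ _ _ (r _ _ _ _ _ _ _ (hadj [none, some b, none, none, some a] rfl))))))
  | [some a, none, none, none, none, some b, some c], _, _ => exact r _ _ _ _ _ _ _ (r _ _ _ _ _ _ _ (r _ _ _ _ _ _ _ (r _ _ _ _ _ _ _ (r _ _ _ _ _ _ _ (r _ _ _ _ _ _ _ (hadj [none, none, some b, some c, some a] rfl))))))
  | [some a, none, none, none, none, some b, none], _, _ => exact r _ _ _ _ _ _ _ (r _ _ _ _ _ _ _ (r _ _ _ _ _ _ _ (r _ _ _ _ _ _ _ (r _ _ _ _ _ _ _ (r _ _ _ _ _ _ _ (hadj [none, none, some b, none, some a] rfl))))))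
  | [some a, none, none, none, none, none, some b], _, _ => exact r _ _ _ _ _ _ _ (r _ _ _ _ _ _ _ (r _ _ _ _ _ _ _ (r _ _ _ _ _ _ _ (r _ _ _ _ _ _ _ (r _ _ _ _ _ _ _ (hadj [none, none, none, some b, some a] rfl))))))
  | [some a, none, none, none, none, none, none], _, _ => exact r _ _ _ _ _ _ _ (r _ _ _ _ _ _ _ (r _ _ _ _ _ _ _ (r _ _ _ _ _ _ _ (r _ _ _ _ _ _ _ (r _ _ _ _ _ _ _ (hadj [none, none, none, none, some a] rfl))))))
  | [none, some a, some b, some c, some d, some e, some f], _, _ => exact h1 a b c d e f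
  | [none, some a, some b, some c, some d, some e, none], _, _ => exact r _ _ _ _ _ _ _ (hadj [some a, some b, some c, some d, some e] rfl)
  | [none, some a, some b, some c, some d, none, some e], _, _ => exact r _ _ _ _ _ _ _ (r _ _ _ _ _ _ _ (h14 e a b c d))
  | [none, some a, some b, some c, some d, none, none], _, _ => exact r _ _ _ _ _ _ _ (r _ _ _ _ _ _ _ (hadj [none, some a, some b, some c, some d] rfl))
  | [none, some a, some b, some c, none, some d, some e], _, _ => exact r _ _ _ _ _ _ _ (r _ _ _ _ _ _ _ (r _ _ _ _ _ _ _ (h23 d e a b c)))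
  | [none, some a, some b, some c, none, some d, none], _, _ => exact r _ _ _ _ _ _ _ (hadj [some a, some b, some c, none, some d] rfl)
  | [none, some a, some b, some c, none, none, some d], _, _ => exact r _ _ _ _ _ _ _ (r _ _ _ _ _ _ _ (r _ _ _ _ _ _ _ (hadj [some d, none, some a, some b, some c] rfl)))
  | [none, some a, some b, some c, none, none, none], _, _ => exact r _ _ _ _ _ _ _ (r _ _ _ _ _ _ _ (r _ _ _ _ _ _ _ (hadj [none, none, some a, some b, some c] rfl)))
  | [none, some a, some b, none, some c, some d, some e], _, _ => exact h23 a b c d e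
  | [none, some a, some b, none, some c, some d, none], _, _ => exact r _ _ _ _ _ _ _ (hadj [some a, some b, none, some c, some d] rfl)
  | [none, some a, some b, none, some c, none, some d], _, _ => exact r _ _ _ _ _ _ _ (r _ _ _ _ _ _ _ (r _ _ _ _ _ _ _ (r _ _ _ _ _ _ _ (h112 c d a b))))
  | [none, some a, some b, none, some c, none, none], _, _ => exact r _ _ _ _ _ _ _ (r _ _ _ _ _ _ _ (hadj [none, some a, some b, none, some c] rfl))
  | [none, some a, some b, none, none, some c, some d], _, _ => exact r _ _ _ _ _ _ _ (r _ _ _ _ _ _ _ (r _ _ _ _ _ _ _ (r _ _ _ _ _ _ _ (hadj [some c, some d, none, some a, some b] rfl))))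
  | [none, some a, some b, none, none, some c, none], _, _ => exact r _ _ _ _ _ _ _ (r _ _ _ _ _ _ _ (r _ _ _ _ _ _ _ (r _ _ _ _ _ _ _ (hadj [some c, none, none, some a, some b] rfl))))
  | [none, some a, some b, none, none, none, some c], _, _ => exact r _ _ _ _ _ _ _ (r _ _ _ _ _ _ _ (r _ _ _ _ _ _ _ (r _ _ _ _ _ _ _ (hadj [none, some c, none, some a, some b] rfl))))
  | [none, some a, some b, none, none, none, none], _, _ => exact r _ _ _ _ _ _ _ (r _ _ _ _ _ _ _ (r _ _ _ _ _ _ _ (r _ _ _ _ _ _ _ (hadj [none, none, none, some a, some b] rfl))))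
  | [none, some a, none, some b, some c, some d, some e], _, _ => exact h14 a b c d e
  | [none, some a, none, some b, some c, some d, none], _, _ => exact r _ _ _ _ _ _ _ (hadj [some a, none, some b, some c, some d] rfl)
  | [none, some a, none, some b, some c, none, some d], _, _ => exact r _ _ _ _ _ _ _ (r _ _ _ _ _ _ _ (h112 d a b c))
  | [none, some a, none, some b, some c, none, none], _, _ => exact r _ _ _ _ _ _ _ (r _ _ _ _ _ _ _ (hadj [none, some a, none, some b, some c] rfl))
  | [none, some a, none, some b, none, some c, some d], _, _ => exact h112 a b c d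
  | [none, some a, none, some b, none, some c, none], _, _ => exact r _ _ _ _ _ _ _ (hadj [some a, none, some b, none, some c] rfl)
  | [none, some a, none, some b, none, none, some c], _, _ => exact r _ _ _ _ _ _ _ (r _ _ _ _ _ _ _ (r _ _ _ _ _ _ _ (hadj [some c, none, some a, none, some b] rfl)))
  | [none, some a, none, some b, none, none, none], _, _ => exact r _ _ _ _ _ _ _ (r _ _ _ _ _ _ _ (r _ _ _ _ _ _ _ (hadj [none, none, some a, none, some b] rfl)))
  | [none, some a, none, none, some b, some c, some d], _, _ => exact r _ _ _ _ _ _ _ (r _ _ _ _ _ _ _ (r _ _ _ _ _ _ _ (r _ _ _ _ _ _ _ (r _ _ _ _ _ _ _ (hadj [some b, some c, some d, none, some a] rfl)))))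
  | [none, some a, none, none, some b, some c, none], _, _ => exact r _ _ _ _ _ _ _ (r _ _ _ _ _ _ _ (r _ _ _ _ _ _ _ (r _ _ _ _ _ _ _ (r _ _ _ _ _ _ _ (hadj [some b, some c, none, none, some a] rfl)))))
  | [none, some a, none, none, some b, none, some c], _, _ => exact r _ _ _ _ _ _ _ (r _ _ _ _ _ _ _ (r _ _ _ _ _ _ _ (r _ _ _ _ _ _ _ (r _ _ _ _ _ _ _ (hadj [some b, none, some c, none, some a] rfl)))))
  | [none, some a, none, none, some b, none, none], _, _ => exact r _ _ _ _ _ _ _ (r _ _ _ _ _ _ _ (r _ _ _ _ _ _ _ (r _ _ _ _ _ _ _ (r _ _ _ _ _ _ _ (hadj [some b, none, none, none, some a] rfl)))))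
  | [none, some a, none, none, none, some b, some c], _, _ => exact r _ _ _ _ _ _ _ (r _ _ _ _ _ _ _ (r _ _ _ _ _ _ _ (r _ _ _ _ _ _ _ (r _ _ _ _ _ _ _ (hadj [none, some b, some c, none, some a] rfl)))))
  | [none, some a, none, none, none, some b, none], _, _ => exact r _ _ _ _ _ _ _ (r _ _ _ _ _ _ _ (r _ _ _ _ _ _ _ (r _ _ _ _ _ _ _ (r _ _ _ _ _ _ _ (hadj [none, some b, none, none, some a] rfl)))))
  | [none, some a, none, none, none, none, some b], _, _ => exact r _ _ _ _ _ _ _ (r _ _ _ _ _ _ _ (r _ _ _ _ _ _ _ (r _ _ _ _ _ _ _ (r _ _ _ _ _ _ _ (hadj [none, none, some b, none, some a] rfl)))))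
  | [none, some a, none, none, none, none, none], _, _ => exact r _ _ _ _ _ _ _ (r _ _ _ _ _ _ _ (r _ _ _ _ _ _ _ (r _ _ _ _ _ _ _ (r _ _ _ _ _ _ _ (hadj [none, none, none, none, some a] rfl)))))
  | [none, none, some a, some b, some c, some d, some e], _, _ => exact hadj [some a, some b, some c, some d, some e] rfl
  | [none, none, some a, some b, some c, some d, none], _, _ => exact hadj [some a, some b, some c, some d, none] rfl
  | [none, none, some a, some b, some c, none, some d], _, _ => exact hadj [some a, some b, some c, none, some d] rfl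
  | [none, none, some a, some b, some c, none, none], _, _ => exact hadj [some a, some b, some c, none, none] rfl
  | [none, none, some a, some b, none, some c, some d], _, _ => exact hadj [some a, some b, none, some c, some d] rfl
  | [none, none, some a, some b, none, some c, none], _, _ => exact hadj [some a, some b, none, some c, none] rfl
  | [none, none, some a, some b, none, none, some c], _, _ => exact hadj [some a, some b, none, none, some c] rfl
  | [none, none, some a, some b, none, none, none], _, _ => exact hadj [some a, some b, none, none, none] rfl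
  | [none, none, some a, none, some b, some c, some d], _, _ => exact hadj [some a, none, some b, some c, some d] rfl
  | [none, none, some a, none, some b, some c, none], _, _ => exact hadj [some a, none, some b, some c, none] rfl
  | [none, none, some a, none, some b, none, some c], _, _ => exact hadj [some a, none, some b, none, some c] rfl
  | [none, none, some a, none, some b, none, none], _, _ => exact hadj [some a, none, some b, none, none] rfl
  | [none, none, some a, none, none, some b, some c], _, _ => exact hadj [some a, none, none, some b, some c] rfl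
  | [none, none, some a, none, none, some b, none], _, _ => exact hadj [some a, none, none, some b, none] rfl
  | [none, none, some a, none, none, none, some b], _, _ => exact hadj [some a, none, none, none, some b] rfl
  | [none, none, some a, none, none, none, none], _, _ => exact hadj [some a, none, none, none, none] rfl
  | [none, none, none, some a, some b, some c, some d], _, _ => exact hadj [none, some a, some b, some c, some d] rfl
  | [none, none, none, some a, some b, some c, none], _, _ => exact hadj [none, some a, some b, some c, none] rfl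
  | [none, none, none, some a, some b, none, some c], _, _ => exact hadj [none, some a, some b, none, some c] rfl
  | [none, none, none, some a, some b, none, none], _, _ => exact hadj [none, some a, some b, none, none] rfl
  | [none, none, none, some a, none, some b, some c], _, _ => exact hadj [none, some a, none, some b, some c] rfl
  | [none, none, none, some a, none, some b, none], _, _ => exact hadj [none, some a, none, some b, none] rfl
  | [none, none, none, some a, none, none, some b], _, _ => exact hadj [none, some a, none, none, some b] rfl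
  | [none, none, none, some a, none, none, none], _, _ => exact hadj [none, some a, none, none, none] rfl
  | [none, none, none, none, some a, some b, some c], _, _ => exact hadj [none, none, some a, some b, some c] rfl
  | [none, none, none, none, some a, some b, none], _, _ => exact hadj [none, none, some a, some b, none] rfl
  | [none, none, none, none, some a, none, some b], _, _ => exact hadj [none, none, some a, none, some b] rfl
  | [none, none, none, none, some a, none, none], _, _ => exact hadj [none, none, some a, none, none] rfl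
  | [none, none, none, none, none, some a, some b], _, _ => exact hadj [none, none, none, some a, some b] rfl
  | [none, none, none, none, none, some a, none], _, _ => exact hadj [none, none, none, some a, none] rfl
  | [none, none, none, none, none, none, some a], _, _ => exact hadj [none, none, none, none, some a] rfl
  | [none, none, none, none, none, none, none], _, _ => exact hadj [none, none, none, none, none] rfl

variable {G : Type u} [Group G]

/-- the pool of involutions -/
def Inv (G : Type u) [Group G] : Set G := {x : G | x * x = 1 ∧ x ≠ 1}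

lemma inv_large (hreg : (Cardinal.mk G).IsRegular) (hc : NoCent G) {e : G} (he : e ≠ 1)
    (he2 : e * e = 1) : ¬ Small (Inv G) := by
  refine conjLarge hreg hc he fun x => ⟨?_, ?_⟩
  · calc x * e * x⁻¹ * (x * e * x⁻¹) = x * (e * e) * x⁻¹ := by group
      _ = 1 := by rw [he2]; group
  · intro h
    apply he
    calc e = x⁻¹ * (x * e * x⁻¹) * x := by group
      _ = 1 := by rw [h]; group

omit [Group G] in
lemma emp (hreg : (Cardinal.mk G).IsRegular) {S : Set G} (h : ∀ x ∈ S, False) : Small S :=
  (small_of_finite hreg Set.finite_empty).mono h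

lemma inv_self {x : G} (h : x * x = 1) : x⁻¹ = x := inv_eq_of_mul_eq_one_left h

/-- two occurrences -/
lemma two_occ (hc : NoCent G) {a b : G} (h : a ≠ 1 ∨ b ≠ 1) :
    Small {x : G | x ∈ Inv G ∧ x * a * x * b = 1} := by
  rcases h with h | h
  · refine (t2 hc h b⁻¹).mono ?_
    rintro x ⟨hx, hx2⟩
    show x * a * x⁻¹ = b⁻¹
    rw [inv_self hx.1]
    exact eq_inv_of_mul_eq_one_left hx2
  · refine (t2 hc h a⁻¹).mono ?_
    rintro x ⟨hx, hx2⟩
    show x * b * x⁻¹ = a⁻¹
    rw [inv_self hx.1]
    have h1 : a * (x * b * x) = 1 := by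
      calc a * (x * b * x) = x⁻¹ * (x * a * x * b) * x := by group
        _ = 1 := by rw [hx2]; group
    exact eq_inv_of_mul_eq_one_right h1

/-- three occurrences with a gap which is an involution -/
lemma three_occ (hc : NoCent G) {a b c : G} (ha : a * a = 1) (h : c * b ≠ 1) :
    Small {x : G | x ∈ Inv G ∧ x * a * x * b * x * c = 1} := by
  refine (t2 hc h (c * b)⁻¹).mono ?_
  rintro x ⟨hx, hx2⟩
  show x * (c * b) * x⁻¹ = (c * b)⁻¹
  rw [inv_self hx.1]
  have h1 : x * a * x * (b * x * c) = 1 := by
    rw [← hx2]; group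
  have h2 : b * x * c = x * a * x := by
    have h3 := eq_inv_of_mul_eq_one_right h1
    rw [h3]
    have h4 : (x * a * x) * (x * a * x) = 1 := by
      calc (x * a * x) * (x * a * x) = x * a * (x * x) * a * x := by group
        _ = x * (a * a) * x := by rw [hx.1]; group
        _ = 1 := by rw [ha, mul_one, hx.1]
    exact inv_self h4
  have h5 : (b * x * c) * (b * x * c) = 1 := by
    rw [h2]
    calc (x * a * x) * (x * a * x) = x * a * (x * x) * a * x := by group
      _ = x * (a * a) * x := by rw [hx.1]; group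
      _ = 1 := by rw [ha, mul_one, hx.1]
  have h6 : x * (c * b) * x * (c * b) = 1 := by
    calc x * (c * b) * x * (c * b) = b⁻¹ * ((b * x * c) * (b * x * c)) * b := by group
      _ = 1 := by rw [h5]; group
  exact eq_inv_of_mul_eq_one_left h6

/-- the good small sets: no odd word of length at most 7 is trivial; one more element -/
lemma step3 (hreg : (Cardinal.mk G).IsRegular) {A : Set G} (i1 : ∀ a ∈ A, a ≠ 1) :
    ∀ l : List (Option G), l.length = 3 → none ∈ l → (∀ y, some y ∈ l → y ∈ A) →
      Small {x | x ∈ Inv G ∧ (ev x l).prod = 1} := by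
  intro l hl hn hA
  refine cyc3 (fun l => Small {x | x ∈ Inv G ∧ (ev x l).prod = 1})
    (fun l a => rotQ _ l a) A ?_ ?_ ?_ l hl hn hA
  · intro a _ b _
    exact (s1 hreg 1 (a * b) 1).mono fun x hx => by simpa [ev, mul_assoc] using hx.2
  · intro a ha
    refine emp hreg ?_
    rintro x ⟨hx, hx2⟩
    have hx' : x * x * a = 1 := by simpa [ev, mul_assoc] using hx2
    rw [hx.1, one_mul] at hx'
    exact i1 a ha hx'
  · refine emp hreg ?_
    rintro x ⟨hx, hx2⟩
    have hx' : x * x * x = 1 := by simpa [ev, mul_assoc] using hx2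
    rw [hx.1, one_mul] at hx'
    exact hx.2 hx'

lemma step5 (hreg : (Cardinal.mk G).IsRegular) (hc : NoCent G) {A : Set G}
    (i1 : ∀ a ∈ A, a ≠ 1) (i3 : ∀ a ∈ A, ∀ b ∈ A, ∀ c ∈ A, a * b * c ≠ 1) :
    ∀ l : List (Option G), l.length = 5 → none ∈ l → (∀ y, some y ∈ l → y ∈ A) →
      Small {x | x ∈ Inv G ∧ (ev x l).prod = 1} := by
  intro l hl hn hA
  refine cyc5 (fun l => Small {x | x ∈ Inv G ∧ (ev x l).prod = 1})
    (fun l a => rotQ _ l a) A ?_ ?_ ?_ ?_ ?_ ?_ ?_ l hl hn hA
  · intro a _ b _ c _ d _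
    exact (s1 hreg 1 (a * b * c * d) 1).mono fun x hx => by simpa [ev, mul_assoc] using hx.2
  · intro a ha b hb c hc
    refine emp hreg ?_
    rintro x ⟨hx, hx2⟩
    have hx' : x * x * (a * b * c) = 1 := by simpa [ev, mul_assoc] using hx2
    rw [hx.1, one_mul] at hx'
    exact i3 a ha b hb c hc hx'
  · intro a ha b hb c _
    refine (t2 hc (i1 a ha) (b * c)⁻¹).mono ?_
    rintro x ⟨hx, hx2⟩
    have hx' : x * a * x * (b * c) = 1 := by simpa [ev, mul_assoc] using hx2
    show x * a * x⁻¹ = (b * c)⁻¹
    rw [inv_self hx.1]; exact eq_inv_of_mul_eq_one_left hx'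
  · intro a _ b _
    refine (s1 hreg 1 (a * b) 1).mono ?_
    rintro x ⟨hx, hx2⟩
    have hx' : x * x * x * (a * b) = 1 := by simpa [ev, mul_assoc] using hx2
    rw [hx.1] at hx'
    exact hx'
  · intro a _ b _
    refine (s1 hreg a b 1).mono ?_
    rintro x ⟨hx, hx2⟩
    have hx' : x * x * (a * x * b) = 1 := by simpa [ev, mul_assoc] using hx2
    rw [hx.1, one_mul] at hx'
    exact hx'
  · intro a ha
    refine emp hreg ?_
    rintro x ⟨hx, hx2⟩
    have hx' : x * x * (x * x) * a = 1 := by simpa [ev, mul_assoc] using hx2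
    rw [hx.1, one_mul, one_mul] at hx'
    exact i1 a ha hx'
  · refine emp hreg ?_
    rintro x ⟨hx, hx2⟩
    have hx' : x * x * (x * x) * x = 1 := by simpa [ev, mul_assoc] using hx2
    rw [hx.1, one_mul, one_mul] at hx'
    exact hx.2 hx'

lemma step7 (hreg : (Cardinal.mk G).IsRegular) (hc : NoCent G) {A : Set G} (hAP : A ⊆ Inv G)
    (i3 : ∀ a ∈ A, ∀ b ∈ A, ∀ c ∈ A, a * b * c ≠ 1)
    (i5 : ∀ l : List G, l.length = 5 → (∀ y ∈ l, y ∈ A) → l.prod ≠ 1) :
    ∀ l : List (Option G), l.length = 7 → none ∈ l → (∀ y, some y ∈ l → y ∈ A) →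
      Small {x | x ∈ Inv G ∧ (ev x l).prod = 1} := by
  intro l hl hn
  refine cyc7 (fun l => (∀ y, some y ∈ l → y ∈ A) → Small {x | x ∈ Inv G ∧ (ev x l).prod = 1})
    ?_ ?_ ?_ ?_ ?_ ?_ l hl hn
  · intro l a h hm
    refine rotQ _ l a (h fun y hy => hm y ?_)
    rw [List.mem_append, List.mem_singleton]
    rcases List.mem_cons.1 hy with h | h
    · exact Or.inr h
    · exact Or.inl h
  · intro l hl hm
    have hm' : ∀ y, some y ∈ l → y ∈ A := fun y hy => hm y (by simp [hy])
    have hsub : {x | x ∈ Inv G ∧ (ev x (none :: none :: l)).prod = 1} ⊆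
        {x | x ∈ Inv G ∧ (ev x l).prod = 1} := by
      rintro x ⟨hx, hx2⟩
      refine ⟨hx, ?_⟩
      have h1 : (ev x (none :: none :: l)).prod = x * (x * (ev x l).prod) := by simp [ev]
      rw [h1, ← mul_assoc, hx.1, one_mul] at hx2
      exact hx2
    by_cases hnl : none ∈ l
    · exact (step5 hreg hc (fun a ha => (hAP ha).2) i3 l hl hnl hm').mono hsub
    · refine emp hreg fun x hx => ?_
      have hx2 := (hsub hx).2
      refine i5 (ev x l) (by simp [ev, hl]) ?_ hx2
      intro y hy
      unfold ev at hy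
      obtain ⟨o, ho, rfl⟩ := List.mem_map.1 hy
      cases o with
      | none => exact absurd ho hnl
      | some a => exact hm' a ho
  · intro a b c d e f _
    exact (s1 hreg 1 (a * b * c * d * e * f) 1).mono fun x hx => by
      simpa [ev, mul_assoc] using hx.2
  · intro a b c d e hm
    have ha : a ∈ A := hm a (by simp)
    refine (two_occ hc (a := a) (b := b * c * d * e) (Or.inl (hAP ha).2)).mono ?_
    rintro x ⟨hx, hx2⟩
    exact ⟨hx, by simpa [ev, mul_assoc] using hx2⟩
  · intro a b c d e hm
    have h3 : c * d * e ≠ 1 := i3 c (hm c (by simp)) d (hm d (by simp)) e (hm e (by simp))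
    refine (two_occ hc (a := a * b) (b := c * d * e) (Or.inr h3)).mono ?_
    rintro x ⟨hx, hx2⟩
    exact ⟨hx, by simpa [ev, mul_assoc] using hx2⟩
  · intro a b c d hm
    have h3 : c * d * b ≠ 1 := i3 c (hm c (by simp)) d (hm d (by simp)) b (hm b (by simp))
    refine (three_occ hc (a := a) (b := b) (c := c * d) (hAP (hm a (by simp))).1 h3).mono ?_
    rintro x ⟨hx, hx2⟩
    exact ⟨hx, by simpa [ev, mul_assoc] using hx2⟩

/-- **a centreless group with small centralisers and an involution is not 7-Shelah** -/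
theorem seven (hreg : (Cardinal.mk G).IsRegular) (hc : NoCent G) {e : G} (he : e ≠ 1)
    (he2 : e * e = 1) :
    ∃ A : Set G, Cardinal.mk A = Cardinal.mk G ∧
      ∀ l : List G, l.length = 7 → (∀ y ∈ l, y ∈ A) → l.prod ≠ 1 := by
  obtain ⟨A, hA, hAP, h⟩ := greedy hreg (Inv G) (inv_large hreg hc he he2)
    [(3, 1), (5, 1), (7, 1)] (by simp) (by
    intro A hAP hInv q hq l hl hn hA
    have i1 : ∀ a ∈ A, a ≠ 1 := fun a ha => (hAP ha).2
    have i3 : ∀ a ∈ A, ∀ b ∈ A, ∀ c ∈ A, a * b * c ≠ 1 := fun a ha b hb c hc => by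
      simpa [mul_assoc] using hInv (3, 1) (by simp) [a, b, c] rfl (by simp [ha, hb, hc])
    simp only [List.mem_cons, List.not_mem_nil, or_false] at hq
    rcases hq with rfl | rfl | rfl
    · exact step3 hreg i1 l hl hn hA
    · exact step5 hreg hc i1 i3 l hl hn hA
    · exact step7 hreg hc hAP i3 (fun l hl hm => hInv (5, 1) (by simp) l hl hm) l hl hn hA)
  exact ⟨A, hA, fun l hl hm => h (7, 1) (by simp) l hl hm⟩

end Pool.Shelah.LF
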